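import Pool.Agent.GenMod.Str

/-!
# Generic ultrafilters and countable quotients of Boolean valued structures
-/

namespace Pool.Agent.GenMod

open Pool.Agent.BVM

deriving instance Countable for Fml

section

variable {B : Type} [CompleteBooleanAlgebra B]

/-- a decreasing sequence of nonzero elements is contained in an ultrafilter -/
theorem exists_uf_seq (b : ℕ → B) (hb : ∀ n, b n ≠ ⊥) (anti : ∀ n, b (n + 1) ≤ b n) :
    ∃ F : UF B, ∀ n, F.U (b n) := by
  have ha : Antitone b := antitone_nat_of_succ_le anti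
  let J : Order.Ideal B := Order.IsIdeal.toIdeal (I := {c | ∃ n, c ≤ (b n)ᶜ})
    { IsLowerSet := fun x y hyx ⟨n, hn⟩ => ⟨n, hyx.trans hn⟩
      Nonempty := ⟨(b 0)ᶜ, 0, le_rfl⟩
      Directed := by
        rintro x ⟨n, hn⟩ y ⟨m, hm⟩
        refine ⟨x ⊔ y, ⟨max n m, sup_le ?_ ?_⟩, le_sup_left, le_sup_right⟩
        · exact hn.trans (compl_le_compl (ha (le_max_left _ _)))
        · exact hm.trans (compl_le_compl (ha (le_max_right _ _))) }
  have hJ : ∀ c, c ∈ J ↔ ∃ n, c ≤ (b n)ᶜ := fun c => Iff.rfl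
  have hdis : Disjoint ((Order.PFilter.principal (⊤ : B) : Order.PFilter B) : Set B)
      (J : Set B) := by
    rw [Set.disjoint_left]
    intro x hx hx'
    have h1 : ⊤ ≤ x := Order.PFilter.mem_principal.1 hx
    obtain ⟨n, hn⟩ := (hJ x).1 hx'
    apply hb n
    have h2 : (b n)ᶜ = ⊤ := top_le_iff.1 (h1.trans hn)
    exact compl_eq_top.1 h2
  obtain ⟨P, hP, hJP, hP2⟩ := DistribLattice.prime_ideal_of_disjoint_filter_ideal hdis
  have htop : (⊤ : B) ∉ P := fun h => Set.disjoint_left.1 hP2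
    (Order.PFilter.mem_principal.2 le_rfl) h
  refine ⟨⟨fun x => x ∉ P, htop, fun h => h P.bot_mem, fun hab ha hb => ha (P.lower hab hb),
    fun {x y} hx hy hxy => ?_, fun x => ?_⟩, fun n hn => ?_⟩
  · rcases hP.mem_or_mem hxy with h | h
    · exact hx h
    · exact hy h
  · by_contra hcon
    push Not at hcon
    apply htop
    rw [← sup_compl_eq_top (x := x)]
    exact P.sup_mem hcon.1 hcon.2
  · apply htop
    rw [← sup_compl_eq_top (x := b n)]
    exact P.sup_mem hn (hJP ((hJ _).2 ⟨n, le_rfl⟩))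

end

section

variable {X : Type*} {B : Type} [CompleteBooleanAlgebra B] (𝒳 : BStr X B)

/-- a countable set of names and an ultrafilter which is generic for it -/
structure Gen where
  /-- the ultrafilter -/
  F : UF B
  /-- the names -/
  xs : ℕ → X
  /-- witnesses of existential statements -/
  wit : ∀ (φ : Fml) (l : ℕ → ℕ), F.U (⨆ x, 𝒳.val φ (cons x fun k => xs (l k))) →
    ∃ i, F.U (𝒳.val φ (cons (xs i) fun k => xs (l k)))

/-- tasks -/
abbrev Task : Type := (Fml × List ℕ) ⊕ (ℕ × ℕ × ℕ)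

/-- a task has been fulfilled -/
def Good (T : ℕ → X → X → Set B) (n : ℕ) (xs xs' : ℕ → X) (b : B) : Task → Prop
  | .inl (φ, l) => b ⊓ (⨆ x, 𝒳.val φ (cons x fun k => xs (l.getD k 0))) = ⊥ ∨
      b ≤ 𝒳.val φ (cons (xs' (2 * n)) fun k => xs (l.getD k 0))
  | .inr (k, i, j) => b ⊓ sSup (T k (xs i) (xs j)) = ⊥ ∨ ∃ c ∈ T k (xs i) (xs j), b ≤ c

theorem step (T : ℕ → X → X → Set B) (n : ℕ) (xs : ℕ → X) (b : B) (hb : b ≠ ⊥) (t : Task) :
    ∃ (b' : B) (xs' : ℕ → X), b' ≠ ⊥ ∧ b' ≤ b ∧ (∀ i, i ≠ 2 * n → xs' i = xs i) ∧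
      Good 𝒳 T n xs xs' b' t := by
  obtain ⟨φ, l⟩ | ⟨k, i, j⟩ := t
  · by_cases h : b ⊓ (⨆ x, 𝒳.val φ (cons x fun k => xs (l.getD k 0))) = ⊥
    · exact ⟨b, xs, hb, le_rfl, fun _ _ => rfl, Or.inl h⟩
    · rw [inf_iSup_eq, iSup_eq_bot] at h
      push Not at h
      obtain ⟨x, hx⟩ := h
      refine ⟨_, Function.update xs (2 * n) x, hx, inf_le_left, fun i hi => ?_, Or.inr ?_⟩
      · exact Function.update_of_ne hi _ _
      · rw [Function.update_self]
        exact inf_le_right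
  · by_cases h : b ⊓ sSup (T k (xs i) (xs j)) = ⊥
    · exact ⟨b, xs, hb, le_rfl, fun _ _ => rfl, Or.inl h⟩
    · rw [inf_sSup_eq, iSup_eq_bot] at h
      push Not at h
      obtain ⟨c, hc⟩ := h
      rw [Ne, iSup_eq_bot] at hc
      push Not at hc
      obtain ⟨hc', hc⟩ := hc
      exact ⟨_, xs, hc, inf_le_left, fun _ _ => rfl, Or.inr ⟨c, hc', inf_le_right⟩⟩

theorem exists_gen (u : ℕ → X) (T : ℕ → X → X → Set B) (c : B) (hc : c ≠ ⊥) :
    ∃ Γ : Gen 𝒳, Γ.F.U c ∧ (∀ k, Γ.xs (2 * k + 1) = u k) ∧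
      ∀ k i j, Γ.F.U (sSup (T k (Γ.xs i) (Γ.xs j))) → ∃ b ∈ T k (Γ.xs i) (Γ.xs j), Γ.F.U b := by
  obtain ⟨e, he⟩ := exists_surjective_nat (Task × ℕ)
  choose nb nx h1 h2 h3 h4 using fun (n : ℕ) (s : {s : B × (ℕ → X) // s.1 ≠ ⊥}) =>
    step 𝒳 T n s.1.2 s.1.1 s.2 (e n).1
  let st : ℕ → {s : B × (ℕ → X) // s.1 ≠ ⊥} := fun n =>
    Nat.rec ⟨(c, fun i => u (i / 2)), hc⟩ (fun n s => ⟨(nb n s, nx n s), h1 n s⟩) n
  have st0 : st 0 = ⟨(c, fun i => u (i / 2)), hc⟩ := rfl
  have sts : ∀ n, st (n + 1) = ⟨(nb n (st n), nx n (st n)), h1 n (st n)⟩ := fun n => rfl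
  let xs : ℕ → X := fun i => (st (i / 2 + 1)).1.2 i
  have stab : ∀ i m, i / 2 + 1 ≤ m → (st m).1.2 i = xs i := by
    intro i m hm
    induction m, hm using Nat.le_induction with
    | base => rfl
    | succ m hm ih =>
      rw [← ih, sts]
      exact h3 m (st m) i (by omega)
  have odd : ∀ k m, (st m).1.2 (2 * k + 1) = u k := by
    intro k m
    induction m with
    | zero =>
      rw [st0]
      show u ((2 * k + 1) / 2) = u k
      congr 1
      omega
    | succ m ih =>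
      rw [← ih, sts]
      exact h3 m (st m) _ (by omega)
  obtain ⟨F, hF⟩ := exists_uf_seq (fun n => (st n).1.1) (fun n => (st n).2)
    (fun n => by rw [sts]; exact h2 n (st n))
  -- every task is treated at arbitrarily late stages
  have late : ∀ (t : Task) (m : ℕ), ∃ n, m ≤ n ∧ (e n).1 = t := by
    intro t m
    by_contra hcon
    push Not at hcon
    have hsub : {x : Task × ℕ | x.1 = t} ⊆ e '' Set.Iio m := by
      rintro ⟨t', k⟩ (rfl : t' = t)
      obtain ⟨n, hn⟩ := he (t', k)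
      refine ⟨n, ?_, hn⟩
      by_contra hmn
      exact hcon n (not_lt.1 hmn) (by rw [hn])
    have hfin : {x : Task × ℕ | x.1 = t}.Finite := ((Set.finite_Iio m).image e).subset hsub
    have hinf : {x : Task × ℕ | x.1 = t}.Infinite :=
      Set.infinite_of_injective_forall_mem (f := fun k : ℕ => ((t, k) : Task × ℕ))
        (fun a b hab => (Prod.ext_iff.1 hab).2) (fun k => rfl)
    exact hinf hfin
  have hwit : ∀ (φ : Fml) (l : ℕ → ℕ), F.U (⨆ x, 𝒳.val φ (cons x fun k => xs (l k))) →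
      ∃ i, F.U (𝒳.val φ (cons (xs i) fun k => xs (l k))) := by
    intro φ l hφ
    let L : List ℕ := (List.range (bound φ)).map l
    have hL : ∀ k, k < bound φ → L.getD k 0 = l k := by
      intro k hk
      simp only [L, List.getD_eq_getElem?_getD, List.getElem?_map, List.getElem?_range hk,
        Option.map_some, Option.getD_some]
    have hL' : ∀ k, bound φ ≤ k → L.getD k 0 = 0 := by
      intro k hk
      simp only [L, List.getD_eq_getElem?_getD, List.getElem?_map,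
        List.getElem?_eq_none (l := List.range (bound φ)) (i := k) (by simpa using hk),
        Option.map_none, Option.getD_none]
    obtain ⟨N, hN⟩ : ∃ N, ∀ k, L.getD k 0 ≤ N := by
      refine ⟨∑ k ∈ Finset.range (bound φ), l k, fun k => ?_⟩
      by_cases hk : k < bound φ
      · rw [hL k hk]
        exact Finset.single_le_sum (f := l) (fun _ _ => Nat.zero_le _) (Finset.mem_range.2 hk)
      · rw [hL' k (not_lt.1 hk)]
        exact Nat.zero_le _
    obtain ⟨n, hn, hen⟩ := late (.inl (φ, L)) (N / 2 + 1)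
    have hv : (fun k => (st n).1.2 (L.getD k 0)) = fun k => xs (L.getD k 0) := by
      funext k
      refine stab _ _ (le_trans ?_ hn)
      have := hN k
      omega
    have key : ∀ x, 𝒳.val φ (cons x fun k => xs (L.getD k 0)) =
        𝒳.val φ (cons x fun k => xs (l k)) := by
      intro x
      refine val_ext 𝒳 φ _ _ fun i hi => ?_
      cases i with
      | zero => rfl
      | succ k =>
        show xs (L.getD k 0) = xs (l k)
        rw [hL k (by omega)]
    have hg := h4 n (st n)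
    rw [hen] at hg
    rcases hg with hg | hg
    · exfalso
      apply F.bot
      rw [← hg]
      refine F.inf ?_ ?_
      · have := hF (n + 1)
        simp only [sts] at this
        exact this
      · rw [hv]
        simp only [key]
        exact hφ
    · refine ⟨2 * n, ?_⟩
      rw [hv] at hg
      have hx : nx n (st n) (2 * n) = xs (2 * n) := by
        have := stab (2 * n) (n + 1) (by omega)
        rw [sts] at this
        exact this
      rw [hx, key] at hg
      refine F.mono hg ?_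
      have := hF (n + 1)
      simp only [sts] at this
      exact this
  refine ⟨⟨F, xs, hwit⟩, ?_, fun k => odd k ((2 * k + 1) / 2 + 1), ?_⟩
  · exact hF 0
  · intro k i j h
    obtain ⟨n, hn, hen⟩ := late (.inr (k, i, j)) (max i j / 2 + 1)
    have e1 : (st n).1.2 i = xs i := stab _ _ (by omega)
    have e2 : (st n).1.2 j = xs j := stab _ _ (by omega)
    have hg := h4 n (st n)
    rw [hen] at hg
    simp only [Good, e1, e2] at hg
    have hb : F.U (nb n (st n)) := by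
      have := hF (n + 1)
      simp only [sts] at this
      exact this
    rcases hg with hg | ⟨b, hb1, hb2⟩
    · exfalso
      apply F.bot
      rw [← hg]
      exact F.inf hb h
    · exact ⟨b, hb1, F.mono hb2 hb⟩

variable {𝒳}

/-- equality of indices -/
def Gen.setoid (Γ : Gen 𝒳) : Setoid ℕ where
  r i j := Γ.F.U (𝒳.eq (Γ.xs i) (Γ.xs j))
  iseqv :=
    { refl := fun x => by rw [𝒳.refl]; exact Γ.F.top
      symm := fun {x y} h => by rw [𝒳.symm]; exact h
      trans := fun {x y z} h h' => Γ.F.mono (𝒳.trans _ _ _) (Γ.F.inf h h') }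

/-- the quotient model -/
def Gen.N (Γ : Gen 𝒳) : Type := Quotient Γ.setoid

/-- the class of a name -/
def Gen.cl (Γ : Gen 𝒳) (i : ℕ) : Γ.N := Quotient.mk Γ.setoid i

theorem Gen.cl_eq {Γ : Gen 𝒳} {i j : ℕ} :
    Γ.cl i = Γ.cl j ↔ Γ.F.U (𝒳.eq (Γ.xs i) (Γ.xs j)) := Quotient.eq (r := Γ.setoid)

theorem Gen.exists_rep {Γ : Gen 𝒳} (x : Γ.N) : ∃ i, Γ.cl i = x := Quotient.exists_rep x

/-- membership in the quotient model -/
def Gen.E (Γ : Gen 𝒳) : Γ.N → Γ.N → Prop :=
  Quotient.lift₂ (s₁ := Γ.setoid) (s₂ := Γ.setoid) (fun i j => Γ.F.U (𝒳.mem (Γ.xs i) (Γ.xs j)))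
    (fun a₁ b₁ a₂ b₂ (h₁ : Γ.F.U (𝒳.eq (Γ.xs a₁) (Γ.xs a₂)))
      (h₂ : Γ.F.U (𝒳.eq (Γ.xs b₁) (Γ.xs b₂))) => propext
      ⟨fun h => Γ.F.mono (𝒳.right _ _ _) (Γ.F.inf h₂ (Γ.F.mono (𝒳.left _ _ _)
        (Γ.F.inf h₁ h))), fun h => Γ.F.mono (𝒳.right _ _ _) (Γ.F.inf
          ((𝒳.symm (Γ.xs b₁) (Γ.xs b₂)) ▸ h₂) (Γ.F.mono (𝒳.left _ _ _)
        (Γ.F.inf ((𝒳.symm (Γ.xs a₁) (Γ.xs a₂)) ▸ h₁) h)))⟩)

theorem Gen.E_cl {Γ : Gen 𝒳} {i j : ℕ} :
    Γ.E (Γ.cl i) (Γ.cl j) ↔ Γ.F.U (𝒳.mem (Γ.xs i) (Γ.xs j)) := Iff.rfl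

theorem Gen.cons_cl (Γ : Gen 𝒳) (i : ℕ) (l : ℕ → ℕ) :
    cons (Γ.cl i) (fun k => Γ.cl (l k)) = fun k => Γ.cl (cons i l k) := by
  funext k
  cases k <;> rfl

theorem Gen.cons_xs (Γ : Gen 𝒳) (i : ℕ) (l : ℕ → ℕ) :
    cons (Γ.xs i) (fun k => Γ.xs (l k)) = fun k => Γ.xs (cons i l k) := by
  funext k
  cases k <;> rfl

/-- truth in the quotient model -/
theorem Gen.los (Γ : Gen 𝒳) (φ : Fml) : ∀ l : ℕ → ℕ,
    Sat Γ.E φ (fun k => Γ.cl (l k)) ↔ Γ.F.U (𝒳.val φ fun k => Γ.xs (l k)) := by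
  induction φ with
  | mem i j => intro l; exact Gen.E_cl
  | eq i j => intro l; exact Gen.cl_eq
  | neg a iha =>
    intro l
    rw [Sat, BStr.val, iha, Γ.F.compl_iff]
  | and a b iha ihb =>
    intro l
    rw [Sat, BStr.val, iha, ihb, Γ.F.inf_iff]
  | or a b iha ihb =>
    intro l
    rw [Sat, BStr.val, iha, ihb, Γ.F.sup_iff]
  | imp a b iha ihb =>
    intro l
    rw [Sat, BStr.val, iha, ihb, Γ.F.himp_iff]
  | iff a b iha ihb =>
    intro l
    rw [Sat, BStr.val, iha, ihb, Γ.F.inf_iff, Γ.F.himp_iff, Γ.F.himp_iff]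
    exact iff_iff_implies_and_implies
  | all a iha =>
    intro l
    rw [Sat, BStr.val]
    constructor
    · intro h
      by_contra hcon
      rw [← Γ.F.compl_iff, compl_iInf] at hcon
      obtain ⟨i, hi⟩ := Γ.wit (.neg a) l hcon
      have := h (Γ.cl i)
      rw [Gen.cons_cl, iha] at this
      rw [BStr.val, Gen.cons_xs] at hi
      exact Γ.F.compl_iff.1 hi this
    · intro h x
      obtain ⟨i, rfl⟩ := Gen.exists_rep x
      rw [Gen.cons_cl, iha, ← Gen.cons_xs]
      exact Γ.F.mono (iInf_le _ (Γ.xs i)) h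
  | ex a iha =>
    intro l
    rw [Sat, BStr.val]
    constructor
    · rintro ⟨x, hx⟩
      obtain ⟨i, rfl⟩ := Gen.exists_rep x
      rw [Gen.cons_cl, iha, ← Gen.cons_xs] at hx
      exact Γ.F.mono (le_iSup (fun x => 𝒳.val a (cons x fun k => Γ.xs (l k))) (Γ.xs i)) hx
    · intro h
      obtain ⟨i, hi⟩ := Γ.wit a l h
      refine ⟨Γ.cl i, ?_⟩
      rw [Gen.cons_cl, iha, ← Gen.cons_xs]
      exact hi

end

end Pool.Agent.GenMod
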