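import Pool.Agent.GenMod.Gen
import Pool.Agent.Sym.ZF
import Pool.Agent.NSC.Split
import Pool.Agent.BVM.Card

/-!
# Countable generic quotients of symmetric submodels
-/

namespace Pool.Agent.GenMod

open Pool.Agent.BVM Pool.Agent.Sym Pool.Agent.NSC

section

variable {B : Type} [CompleteBooleanAlgebra B] (S : Sys B)

/-- the Boolean valued structure of hereditarily symmetric names -/
def hstr : BStr (HN S) B where
  eq x y := eqv x.1 y.1
  mem x y := memv x.1 y.1
  refl x := eqv_refl x.1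
  symm x y := eqv_symm x.1 y.1
  trans x y z := eqv_trans x.1 y.1 z.1
  left x y z := memv_congr_left x.1 y.1 z.1
  right x y z := memv_congr_right x.1 y.1 z.1

theorem hstr_val (φ : Fml) : ∀ v : ℕ → HN S, (hstr S).val φ v = valS S φ v := by
  induction φ with
  | mem i j => intro v; rfl
  | eq i j => intro v; rfl
  | neg a iha => intro v; rw [BStr.val, iha, valS_neg]
  | and a b iha ihb => intro v; rw [BStr.val, iha, ihb, valS_and]
  | or a b iha ihb => intro v; rw [BStr.val, iha, ihb, valS_or]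
  | imp a b iha ihb => intro v; rw [BStr.val, iha, ihb, valS_imp]
  | iff a b iha ihb => intro v; rw [BStr.val, iha, ihb, valS_iff]
  | all a iha => intro v; rw [BStr.val, valS_all]; exact iInf_congr fun x => iha _
  | ex a iha => intro v; rw [BStr.val, valS_ex]; exact iSup_congr fun x => iha _

/-- generic data for the symmetric submodel -/
structure HGen where
  /-- the ultrafilter and the names -/
  Γ : Gen (hstr S)
  /-- the name of `ω` -/
  o : ℕ
  /-- the name of `ω` -/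
  ho : Γ.xs o = onTS S ℕ
  /-- members of names -/
  el : ∀ i j, Γ.F.U (memv (Γ.xs i).1 (Γ.xs j).1) → ∃ a : (Γ.xs j).1.ty,
    Γ.F.U ((Γ.xs j).1.bv a) ∧ Γ.F.U (eqv (Γ.xs i).1 ((Γ.xs j).1.fn a))

theorem exists_hgen (u : ℕ → HN S) (Q : HN S → Set B) (c : B) (hc : c ≠ ⊥) :
    ∃ Γ : HGen S, Γ.Γ.F.U c ∧ (∀ k, ∃ i, Γ.Γ.xs i = u k) ∧
      ∀ i, Γ.Γ.F.U (sSup (Q (Γ.Γ.xs i))) → ∃ b ∈ Q (Γ.Γ.xs i), Γ.Γ.F.U b := by
  obtain ⟨Γ, h1, h2, h3⟩ := exists_gen (hstr S) (fun n => Nat.casesOn n (onTS S ℕ) u)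
    (fun n x y => Nat.casesOn n {c | ∃ a : y.1.ty, c = y.1.bv a ⊓ eqv x.1 (y.1.fn a)}
      fun _ => Q x) c hc
  refine ⟨⟨Γ, 1, h2 0, fun i j h => ?_⟩, h1, fun k => ⟨2 * (k + 1) + 1, h2 (k + 1)⟩,
    fun i h => h3 1 i i h⟩
  obtain ⟨b, ⟨a, rfl⟩, hb⟩ := h3 0 i j (by
    refine Γ.F.mono ?_ h
    rw [memv_eq]
    exact iSup_le fun a => le_sSup ⟨a, rfl⟩)
  rw [Γ.F.inf_iff] at hb
  exact ⟨a, hb⟩

variable {S}

/-- transfer of truth -/
theorem sat_gen (Γ : Gen (hstr S)) (φ : Fml)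
    (h : ∀ (w : ℕ → HN S) (F : UF B), Sat (SE S F) φ fun i => of S F (w i)) (v : ℕ → Γ.N) :
    Sat Γ.E φ v := by
  choose l hl using fun i => Gen.exists_rep (v i)
  have e : v = fun i => Γ.cl (l i) := funext fun i => (hl i).symm
  rw [e, Gen.los, hstr_val]
  refine Γ.F.mono ?_ Γ.F.top
  exact le_of_uf fun F _ => (Sym.los S F φ _).1 (h _ F)

/-- the generic quotients are models of ZF -/
theorem gen_zf (Γ : Gen (hstr S)) : NSC.ZF Γ.E where
  ext x y h := sat_gen Γ (.imp (.all (.iff (.mem 0 1) (.mem 0 2))) (.eq 0 1))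
    (fun w F => (Sym.zf S F).ext (of S F (w 0)) (of S F (w 1))) (cons x fun _ => y) h
  found x h := by
    have := sat_gen Γ (.imp (.ex (.mem 0 1)) (.ex (.and (.mem 0 1)
      (.all (.imp (.mem 0 1) (.neg (.mem 0 2)))))))
      (fun w F => (Sym.zf S F).found (of S F (w 0))) (fun _ => x)
    exact this h
  pair x y := sat_gen Γ (.ex (.all (.iff (.mem 0 1) (.or (.eq 0 2) (.eq 0 3)))))
    (fun w F => (Sym.zf S F).pair (of S F (w 0)) (of S F (w 1))) (cons x fun _ => y)
  union x := sat_gen Γ (.ex (.all (.iff (.mem 0 1) (.ex (.and (.mem 0 3) (.mem 1 0))))))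
    (fun w F => (Sym.zf S F).union (of S F (w 0))) (fun _ => x)
  power x := sat_gen Γ (.ex (.all (.iff (.mem 0 1) (.all (.imp (.mem 0 1) (.mem 0 3))))))
    (fun w F => (Sym.zf S F).power (of S F (w 0))) (fun _ => x)
  infinity := sat_gen Γ (.ex (.and (.ex (.and (.mem 0 1) (.all (.neg (.mem 0 1)))))
    (.all (.imp (.mem 0 1) (.ex (.and (.mem 0 2) (.all (.iff (.mem 0 1)
      (.or (.mem 0 2) (.eq 0 2))))))))))
    (fun w F => (Sym.zf S F).infinity) (fun _ => Γ.cl 0)
  sep φ v x := by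
    have := sat_gen Γ (.ex (.all (.iff (.mem 0 1) (.and (.mem 0 2)
      (ren (fun n => Nat.casesOn n 0 fun m => m + 3) φ)))))
      (fun w F => by
        obtain ⟨y, hy⟩ := (Sym.zf S F).sep φ (fun i => of S F (w (i + 1))) (of S F (w 0))
        refine ⟨y, fun z => (hy z).trans (and_congr Iff.rfl ?_)⟩
        rw [sat_ren]
        have e1 : (fun i => cons z (cons y fun i => of S F (w i))
            (Nat.casesOn i 0 fun m => m + 3)) = cons z fun i => of S F (w (i + 1)) := by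
          funext i; cases i <;> rfl
        rw [e1]) (cons x v)
    obtain ⟨y, hy⟩ := this
    refine ⟨y, fun z => (hy z).trans (and_congr Iff.rfl ?_)⟩
    rw [sat_ren]
    have e1 : (fun i => cons z (cons y (cons x v)) (Nat.casesOn i 0 fun m => m + 3)) =
        cons z v := by
      funext i; cases i <;> rfl
    rw [e1]
  repl φ v x h := by
    have := sat_gen Γ (.imp (.all (.imp (.mem 0 1) (.ex (.and
      (ren (fun n => Nat.casesOn n 0 fun n => Nat.casesOn n 1 fun m => m + 3) φ)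
      (.all (.imp (ren (fun n => Nat.casesOn n 0 fun n => Nat.casesOn n 2 fun m => m + 4) φ)
        (.eq 0 1)))))))
      (.ex (.all (.iff (.mem 0 1) (.ex (.and (.mem 0 3)
        (ren (fun n => Nat.casesOn n 1 fun n => Nat.casesOn n 0 fun m => m + 4) φ)))))))
      (fun w F => by
        intro hw
        obtain ⟨y, hy⟩ := (Sym.zf S F).repl φ (fun i => of S F (w (i + 1))) (of S F (w 0)) (by
          intro a ha
          obtain ⟨b, hb, hb'⟩ := hw a ha
          refine ⟨b, ?_, fun b' hb'' => hb' b' ?_⟩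
          · rw [sat_ren] at hb
            have e1 : (fun i => cons b (cons a fun i => of S F (w i))
              (Nat.casesOn i 0 fun n => Nat.casesOn n 1 fun m => m + 3)) =
              cons b (cons a fun i => of S F (w (i + 1))) := by
              funext i
              rcases i with _ | _ | i <;> rfl
            rwa [e1] at hb
          · rw [sat_ren]
            have e1 : (fun i => cons b' (cons b (cons a fun i => of S F (w i)))
              (Nat.casesOn i 0 fun n => Nat.casesOn n 2 fun m => m + 4)) =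
              cons b' (cons a fun i => of S F (w (i + 1))) := by
              funext i
              rcases i with _ | _ | i <;> rfl
            rw [e1]
            exact hb'')
        refine ⟨y, fun b => (hy b).trans (exists_congr fun a => and_congr Iff.rfl ?_)⟩
        rw [sat_ren]
        have e1 : (fun i => cons a (cons b (cons y fun i => of S F (w i)))
          (Nat.casesOn i 1 fun n => Nat.casesOn n 0 fun m => m + 4)) =
          cons b (cons a fun i => of S F (w (i + 1))) := by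
          funext i
          rcases i with _ | _ | i <;> rfl
        rw [e1]) (cons x v)
    obtain ⟨y, hy⟩ := this (by
      intro a ha
      obtain ⟨b, hb, hb'⟩ := h a ha
      refine ⟨b, ?_, fun b' hb'' => hb' b' ?_⟩
      · rw [sat_ren]
        have e1 : (fun i => cons b (cons a (cons x v))
          (Nat.casesOn i 0 fun n => Nat.casesOn n 1 fun m => m + 3)) = cons b (cons a v) := by
          funext i
          rcases i with _ | _ | i <;> rfl
        rw [e1]
        exact hb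
      · rw [sat_ren] at hb''
        have e1 : (fun i => cons b' (cons b (cons a (cons x v)))
          (Nat.casesOn i 0 fun n => Nat.casesOn n 2 fun m => m + 4)) = cons b' (cons a v) := by
          funext i
          rcases i with _ | _ | i <;> rfl
        rw [e1] at hb''
        exact hb'')
    refine ⟨y, fun b => (hy b).trans (exists_congr fun a => and_congr Iff.rfl ?_)⟩
    rw [sat_ren]
    have e1 : (fun i => cons a (cons b (cons y (cons x v)))
      (Nat.casesOn i 1 fun n => Nat.casesOn n 0 fun m => m + 4)) = cons b (cons a v) := by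
      funext i
      rcases i with _ | _ | i <;> rfl
    rw [e1]

/-- the name of `ω` is inductive -/
theorem ind_omega (F : UF B) : Ind (SE S F) (of S F (onTS S ℕ)) := by
  refine ⟨⟨of S F (onS S 0), ?_, ?_⟩, ?_⟩
  · show F.U (memv (on 0) (onT ℕ))
    rw [memv_on_onT]
    exact F.top
  · rintro ⟨m, x, rfl, hx⟩ hz
    apply F.bot
    have : F.U (memv x (on 0)) := hz
    rwa [memv_on_zero] at this
  · intro y hy
    exact E_onT S (X := ℕ) (.ex (.and (.mem 0 2)
      (.all (.iff (.mem 0 1) (.or (.mem 0 2) (.eq 0 2)))))) (fun _ => onTS S ℕ) ⊤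
      (fun F _ n => by
        refine ⟨of S F (onS S (n + 1)), ?_, ?_⟩
        · show F.U (memv (on (n + 1)) (onT ℕ))
          rw [memv_on_onT]
          exact F.top
        · rintro ⟨m, x, rfl, hx⟩
          show F.U (memv x (on (n + 1))) ↔ (F.U (memv x (on n)) ∨ _)
          rw [memv_on_succ, F.sup_iff]
          refine or_congr Iff.rfl ?_
          exact (Subtype.ext_iff.trans BVM.Mod.mk_eq).symm) F F.top y hy

theorem HGen.ind (Γ : HGen S) : Ind Γ.Γ.E (Γ.Γ.cl Γ.o) := by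
  have h : valS S (fInd 0) (fun _ => onTS S ℕ) = ⊤ := by
    rw [eq_top_iff]
    refine le_of_uf fun F _ => (Sym.los S F (fInd 0) fun _ => onTS S ℕ).1 ?_
    exact ind_omega F
  have h2 := (Gen.los Γ.Γ (fInd 0) fun _ => Γ.o).2 (by
    rw [hstr_val]
    simp only [Γ.ho]
    rw [h]
    exact Γ.Γ.F.top)
  exact h2

/-- members of `ω` -/
theorem HGen.mem_omega (Γ : HGen S) {x : Γ.Γ.N} (hx : Γ.Γ.E x (Γ.Γ.cl Γ.o)) :
    ∃ i, x = Γ.Γ.cl i ∧ ∃ n : ℕ, Γ.Γ.F.U (eqv (Γ.Γ.xs i).1 (on n)) := by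
  obtain ⟨i, rfl⟩ := Gen.exists_rep x
  refine ⟨i, rfl, ?_⟩
  obtain ⟨a, _, ha⟩ := Γ.el i Γ.o hx
  revert a
  rw [Γ.ho]
  intro a _ ha
  exact ⟨a, ha⟩

/-- the generic quotients are `ω`-models -/
theorem HGen.om (Γ : HGen S) : OM Γ.Γ.E := by
  refine ⟨gen_zf Γ.Γ, fun n hn => ?_⟩
  have hn' := hn _ Γ.ind
  obtain ⟨i, rfl, k, hk⟩ := Γ.mem_omega hn'
  -- members of `n`
  have key : ∀ y : {y | Γ.Γ.E y (Γ.Γ.cl i)}, ∃ m : Set.Iio k, ∃ j, y.1 = Γ.Γ.cl j ∧
      Γ.Γ.F.U (eqv (Γ.Γ.xs j).1 (on m.1)) := by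
    rintro ⟨y, hy⟩
    obtain ⟨j, rfl⟩ := Gen.exists_rep y
    have h1 : Γ.Γ.F.U (memv (Γ.Γ.xs j).1 (on k)) :=
      Γ.Γ.F.mono (memv_congr_right _ _ _) (Γ.Γ.F.inf hk hy)
    have h2 : Γ.Γ.F.U (memv (Γ.Γ.xs j).1 (onT ℕ)) := by
      refine Γ.Γ.F.mono (memv_onT_trans (on k) (Γ.Γ.xs j).1) (Γ.Γ.F.inf ?_ h1)
      rw [memv_on_onT]
      exact Γ.Γ.F.top
    have h3 : Γ.Γ.E (Γ.Γ.cl j) (Γ.Γ.cl Γ.o) := by
      show Γ.Γ.F.U (memv (Γ.Γ.xs j).1 (Γ.Γ.xs Γ.o).1)
      rw [Γ.ho]
      exact h2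
    obtain ⟨j', e, m, hm⟩ := Γ.mem_omega h3
    have hm' : Γ.Γ.F.U (eqv (Γ.Γ.xs j).1 (on m)) := by
      have h4 : Γ.Γ.F.U (eqv (Γ.Γ.xs j).1 (Γ.Γ.xs j').1) := Gen.cl_eq.1 e
      exact Γ.Γ.F.mono (eqv_trans _ _ _) (Γ.Γ.F.inf h4 hm)
    have h5 : Γ.Γ.F.U (memv (on m) (on k)) :=
      Γ.Γ.F.mono (memv_congr_left _ _ _) (Γ.Γ.F.inf hm' h1)
    rw [memv_on, UF.tv_iff] at h5
    exact ⟨⟨m, h5⟩, j, rfl, hm'⟩
  choose f hf using key
  have : Finite (Set.Iio k) := Set.finite_Iio k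
  refine Finite.of_injective f ?_
  intro y y' hyy
  obtain ⟨j, e1, h1⟩ := hf y
  obtain ⟨j', e2, h2⟩ := hf y'
  apply Subtype.ext
  rw [e1, e2, Gen.cl_eq]
  refine Γ.Γ.F.mono (eqv_trans _ (on (f y).1) _) (Γ.Γ.F.inf h1 ?_)
  rw [eqv_symm, hyy]
  exact h2

end

end Pool.Agent.GenMod
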