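import Pool.Agent.BVM.Los

/-!
# Boolean valued structures, and countable generic quotients
-/

namespace Pool.Agent.GenMod

open Pool.Agent.BVM

/-- a Boolean valued structure for the language of set theory -/
structure BStr (X : Type*) (B : Type) [CompleteBooleanAlgebra B] where
  /-- value of equality -/
  eq : X → X → B
  /-- value of membership -/
  mem : X → X → B
  refl : ∀ x, eq x x = ⊤
  symm : ∀ x y, eq x y = eq y x
  trans : ∀ x y z, eq x y ⊓ eq y z ≤ eq x z
  left : ∀ x y z, eq x y ⊓ mem x z ≤ mem y z
  right : ∀ x y z, eq y z ⊓ mem x y ≤ mem x z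

section

variable {X : Type*} {B : Type} [CompleteBooleanAlgebra B] (𝒳 : BStr X B)

/-- Boolean value of a formula -/
noncomputable def BStr.val : Fml → (ℕ → X) → B
  | .mem i j, v => 𝒳.mem (v i) (v j)
  | .eq i j, v => 𝒳.eq (v i) (v j)
  | .neg a, v => (BStr.val a v)ᶜ
  | .and a b, v => BStr.val a v ⊓ BStr.val b v
  | .or a b, v => BStr.val a v ⊔ BStr.val b v
  | .imp a b, v => BStr.val a v ⇨ BStr.val b v
  | .iff a b, v => (BStr.val a v ⇨ BStr.val b v) ⊓ (BStr.val b v ⇨ BStr.val a v)
  | .all a, v => ⨅ x, BStr.val a (cons x v)
  | .ex a, v => ⨆ x, BStr.val a (cons x v)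

/-- a bound for the free variables of a formula -/
def bound : Fml → ℕ
  | .mem i j => max i j + 1
  | .eq i j => max i j + 1
  | .neg a => bound a
  | .and a b => max (bound a) (bound b)
  | .or a b => max (bound a) (bound b)
  | .imp a b => max (bound a) (bound b)
  | .iff a b => max (bound a) (bound b)
  | .all a => bound a
  | .ex a => bound a

theorem val_ext (φ : Fml) : ∀ (v v' : ℕ → X), (∀ i < bound φ, v i = v' i) →
    𝒳.val φ v = 𝒳.val φ v' := by
  induction φ with
  | mem i j =>
    intro v v' h
    simp only [BStr.val]
    rw [h i (by simp only [bound]; omega), h j (by simp only [bound]; omega)]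
  | eq i j =>
    intro v v' h
    simp only [BStr.val]
    rw [h i (by simp only [bound]; omega), h j (by simp only [bound]; omega)]
  | neg a iha =>
    intro v v' h
    simp only [BStr.val]
    rw [iha v v' h]
  | and a b iha ihb =>
    intro v v' h
    simp only [BStr.val]
    rw [iha v v' fun i hi => h i (by simp only [bound]; omega),
      ihb v v' fun i hi => h i (by simp only [bound]; omega)]
  | or a b iha ihb =>
    intro v v' h
    simp only [BStr.val]
    rw [iha v v' fun i hi => h i (by simp only [bound]; omega),
      ihb v v' fun i hi => h i (by simp only [bound]; omega)]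
  | imp a b iha ihb =>
    intro v v' h
    simp only [BStr.val]
    rw [iha v v' fun i hi => h i (by simp only [bound]; omega),
      ihb v v' fun i hi => h i (by simp only [bound]; omega)]
  | iff a b iha ihb =>
    intro v v' h
    simp only [BStr.val]
    rw [iha v v' fun i hi => h i (by simp only [bound]; omega),
      ihb v v' fun i hi => h i (by simp only [bound]; omega)]
  | all a iha =>
    intro v v' h
    simp only [BStr.val]
    refine iInf_congr fun x => iha _ _ fun i hi => ?_
    cases i with
    | zero => rfl
    | succ n => exact h n (by simp only [bound]; omega)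
  | ex a iha =>
    intro v v' h
    simp only [BStr.val]
    refine iSup_congr fun x => iha _ _ fun i hi => ?_
    cases i with
    | zero => rfl
    | succ n => exact h n (by simp only [bound]; omega)

end

end Pool.Agent.GenMod
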